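import Pool.Agent.E8helper36.CF.Asm3
import Pool.Agent.E8helper36.CF.DST
import Pool.Agent.E8helper36.CF.UST2
import Pool.Agent.E8helper98.CF.CEN
import Pool.Agent.E8helper57.CF.ROT
import Pool.Agent.E8helper69.CF.NRM
import Pool.Agent.E8helper73.CF.FL
import Pool.Agent.E8helper82.CF.POT
import Pool.Agent.E8helper72.CF.TOP
import Pool.Agent.E8helper99.CF.CLO
import Pool.Agent.E8helper10.CF.KST
import Pool.Agent.E8helper41.CF.IND
import Pool.Agent.E8helper40.CF.CH1
import Pool.Agent.E8helper91.CF.CH2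
import Pool.Agent.E8helper71.CF.NB
import Pool.Agent.E8helper88.CF.UU3

/-!
# The diameter of the centered-flip graph of non-crossing matchings

For odd `n ≥ 3` the diameter of `H n` is between `3 n - 7` and `3 n - 7 + 2 ⌊(n - 3) / 6⌋`; two
matchings each of which contains a diameter of the circle, or is adjacent to one that does, are at
distance at most `3 n - 7`.
-/

set_option autoImplicit false

namespace Pool.Agent.Results.MP_717b2e_co.DiameterBoundsH36

open Pool.Agent.E8helper36.CF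

theorem result (n : ℕ) (hn : Odd n) (h3 : 3 ≤ n) :
    (∃ Φ : Matching n → ℤ,
      (∀ M M', (H n).Adj M M' → Φ M' = Φ M + 2 * n ∨ Φ M' = Φ M - 2 * n) ∧
      Φ (matA n) = n * (3 * n - 7) ∧ Φ (matB n) = n * (7 - 3 * n) ∧
      (∀ M M', |Φ M' - Φ M| ≤ 2 * n * (H n).dist M M') ∧
      ∀ M, NearDiam M → (2 * n * (H n).dist M (matA n) : ℤ) = Φ (matA n) - Φ M ∧
        (2 * n * (H n).dist M (matB n) : ℤ) = Φ M - Φ (matB n)) ∧
    (H n).Connected ∧ (H n).Colorable 2 ∧
    (H n).dist (matA n) (matB n) = 3 * n - 7 ∧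
    (∀ M M', NearDiam M → NearDiam M' → (H n).dist M M' ≤ 3 * n - 7) ∧
    (∀ M, ∃ M', NearDiam M' ∧ (H n).dist M M' ≤ (n - 3) / 6) ∧
    3 * n - 7 ≤ (H n).diam ∧ (H n).diam ≤ 3 * n - 7 + 2 * ((n - 3) / 6) := by
  have hC := Pool.Agent.E8helper98.CF.t_CEN
  have hR := Pool.Agent.E8helper57.CF.t_ROT
  have hN := Pool.Agent.E8helper69.CF.t_NRM
  have hF1 := Pool.Agent.E8helper73.CF.t_FL1
  have hF2 := Pool.Agent.E8helper73.CF.t_FL2
  have hP := Pool.Agent.E8helper36.CF.t_POT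
  have hT := Pool.Agent.E8helper72.CF.t_TOP
  have hCl := Pool.Agent.E8helper99.CF.t_CLO hT
  have hK := Pool.Agent.E8helper10.CF.t_KST hF1 hF2 hP hT
  have hD := Pool.Agent.E8helper36.CF.t_DST hF2 hP
  have hI := Pool.Agent.E8helper41.CF.t_IND hC hR hCl hK hD
  have hU2 := Pool.Agent.E8helper36.CF.U2.t_UST2 hR hF1 hT
  have hH := Pool.Agent.E8helper91.CF.t_CH2 hT (Pool.Agent.E8helper40.CF.t_CH1 hT)
  have hU := Pool.Agent.E8helper88.CF.t_UU3 hC hR hN hT hU2 hH
  have hNB := Pool.Agent.E8helper71.CF.t_NB hT hP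
  exact main hC hF1 (fun M hM => Ex_near hC hR hI hN hCl hK hNB hn h3 M hM) hU hn h3

end Pool.Agent.Results.MP_717b2e_co.DiameterBoundsH36
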